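import Pool.Agent.R601.KL.Main

/-!
# A Cantor completely metrizable K-Loeb space with a cuf base that is not Loeb

The class `U A` of the atoms and sets over a set `A` of atoms, its transitive subclasses `N` that
are models of ZFA (`IsZFA`) and permutation models (`FMS`) are defined in
`Pool.Agent.R598.FM`; the topological notions in a model and the permutation model `NK` used here
are defined in `Pool.Agent.R601.KL.Defs`.

The atoms are the pairs `(m, z)` of a natural number `m` and a sequence `z` of integers. Distances
are given by congruences of the terms modulo powers of `2` (so every component
`X m = {(m, z)}` is totally bounded), and the group consists of all isometries that preserve `m`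
and, for atoms `(m, z)` and `(m, z')` with `z j = z' j` for all `j < i`, the difference
`z i - z' i`; supports are finite. No group element `≠ 1` on a component fixes the component, so
there is no choice function for the components. If a group element preserves a compact set but
moves its element `(m, z)`, first at the `i`-th term, then the `i`-th terms of the elements of the
compact set whose sequences begin like `z` contain all elements of an infinite arithmetic
progression, and this contradicts compactness.
-/

namespace Pool.Agent.Results.MP_fc22d4_lc.KLoebNotLoeb

open Pool.Agent.R598.FM Pool.Agent.R601.KL

/-- There is a model `N` of ZFA with an infinite set of atoms and in `N` a Cantor completely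
metrizable K-Loeb space `(X, T)` with a cuf base that is not Loeb. -/
theorem result : ∃ (A : Type) (N : Set (U A)), Infinite A ∧ IsZFA N ∧ ∃ X ∈ N, ∃ T ∈ N,
    IsTop N X T ∧ IsCantorMetrizable N X T ∧ IsKLoeb N X T ∧ HasCufBase N T ∧ ¬ IsLoeb N X T :=
  ⟨At, NK, inferInstance, FMS.isZFA sys, U.atoms, FMS.atoms_mem, TK, TK_mem, isTop, isCantor,
    isKLoeb, hasCufBase, not_isLoeb⟩

end Pool.Agent.Results.MP_fc22d4_lc.KLoebNotLoeb
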